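import Pool.Agent.Helper5.UN.RELM
import Pool.Agent.Helper29.BL.RH

/-!
# Project UN (MP_a41896_nt), packet LSZ
-/

namespace Pool.Agent.Helper24.UN

open WeierstrassCurve Height Height.AdmissibleAbsValues MvPolynomial
open Pool.Agent.Helper29.BL hiding sg
open Pool.Agent.Helper5.RO Pool.Agent.Helper5.UN

theorem vec_sg {n : ℕ} (m : Fin n → ℤ) (h : ∀ i, m i = 0 ∨ m i = 1) : vec (sg m) = m := by
  funext i
  unfold vec sg
  rcases h i with h | h <;> rw [h] <;> rfl

/-- The defining property of the differential addition: `asm` of the product of the two pairs is the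
product of the new pair and the pair of the difference. -/
theorem step (hA : G_ASM) (hV : G_VAL) {K : Type} [Field K] [DecidableEq K] (W : Affine K)
    [W.IsElliptic] {n : ℕ} (a : EE n → Bool) (ζ : EE n → K) (z : Fin n → W.Point)
    (hT : TP a ζ z) (k : ℕ) (m : Fin n → ℤ)
    (h1 : ∀ i, |m i / 2| ≤ 2 ^ k) (h2 : ∀ i, |m i - m i / 2| ≤ 2 ^ k) :
    asm (RingHom.id K) W (sy (rp (RingHom.id K) W a ζ k fun i => m i / 2)
      (rp (RingHom.id K) W a ζ k fun i => m i - m i / 2)) =
    sy (rp (RingHom.id K) W a ζ (k + 1) m) (pr a ζ (sg fun i => m i - m i / 2 - m i / 2)) := by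
  obtain ⟨g1, g2, -, -, -⟩ := hA
  have hW : W = W.map (RingHom.id K) := (WeierstrassCurve.map_id W).symm
  obtain ⟨σ, -, hσ⟩ := hV K K (RingHom.id K) W W hW n a ζ z hT k (fun i => m i / 2) h1
  obtain ⟨τ, -, hτ⟩ := hV K K (RingHom.id K) W W hW n a ζ z hT k (fun i => m i - m i / 2) h2
  obtain ⟨c, -, hc⟩ := g1 K K (RingHom.id K) W W hW (vz (fun i => m i / 2) z)
    (vz (fun i => m i - m i / 2) z)
  obtain ⟨ρ, hρ0, hρ⟩ := hT (sg fun i => m i - m i / 2 - m i / 2)
  have he : vec (sg fun i => m i - m i / 2 - m i / 2) = fun i => m i - m i / 2 - m i / 2 := by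
    apply vec_sg
    intro i
    omega
  rw [he] at hρ
  have e1 : vz (fun i => m i / 2) z + vz (fun i => m i - m i / 2) z = vz m z := by
    rw [← vz_add z _ _ m]
    intro i
    ring
  have e2 : vz (fun i => m i / 2) z - vz (fun i => m i - m i / 2) z =
      -vz (fun i => m i - m i / 2 - m i / 2) z := by
    rw [vz_sub z (fun i => m i - m i / 2) (fun i => m i / 2) (fun i => m i - m i / 2 - m i / 2)
      (fun i => rfl)]
    abel
  rw [e1, e2, Affine.Point.xRep_neg] at hc
  -- the formula for asm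
  have key : asm (RingHom.id K) W (sy (rp (RingHom.id K) W a ζ k fun i => m i / 2)
      (rp (RingHom.id K) W a ζ k fun i => m i - m i / 2)) =
      ((σ * τ) ^ 2 * c * ρ⁻¹) • sy (vz m z).xRep
        (pr a ζ (sg fun i => m i - m i / 2 - m i / 2)) := by
    rw [hσ, hτ, (g2 K K (RingHom.id K) W σ τ 0 _ _).2, (g2 K K (RingHom.id K) W (σ * τ) 0 _ 0 0).1,
      hc, smul_smul, hρ]
    have e3 : sy (vz m z).xRep (ρ • (vz (fun i => m i - m i / 2 - m i / 2) z).xRep) =
        ρ • sy (vz m z).xRep (vz (fun i => m i - m i / 2 - m i / 2) z).xRep := by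
      have := (g2 K K (RingHom.id K) W 1 ρ 0 (vz m z).xRep
        (vz (fun i => m i - m i / 2 - m i / 2) z).xRep).2
      rwa [one_smul, one_mul] at this
    rw [e3, smul_smul]
    congr 1
    field_simp
  have key2 : rp (RingHom.id K) W a ζ (k + 1) m = ((σ * τ) ^ 2 * c * ρ⁻¹) • (vz m z).xRep := by
    change dad (RingHom.id K) W (rp (RingHom.id K) W a ζ k fun i => m i / 2)
      (rp (RingHom.id K) W a ζ k fun i => m i - m i / 2)
      (a (sg fun i => m i - m i / 2 - m i / 2)) (pr a ζ (sg fun i => m i - m i / 2 - m i / 2)) = _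
    unfold dad
    rw [key]
    unfold pr
    rcases ha : a (sg fun i => m i - m i / 2 - m i / 2) with _ | _
    · simp only [Bool.false_eq_true, if_false]
      ext j
      fin_cases j
      · simp [sy]
      · simp [sy]
        ring
    · simp only [if_true]
      ext j
      fin_cases j
      · simp [sy]
        ring
      · simp [sy]
  rw [key, key2]
  have := (g2 K K (RingHom.id K) W ((σ * τ) ^ 2 * c * ρ⁻¹) 1 0 (vz m z).xRep
    (pr a ζ (sg fun i => m i - m i / 2 - m i / 2))).2
  rw [one_smul, mul_one] at this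
  exact this.symm

theorem pr_le {K : Type} [Field K] {n : ℕ} (v : AbsoluteValue K ℝ) (a : EE n → Bool)
    (ζ : EE n → K) (h : ∀ e, v (ζ e) ≤ 1) (e : EE n) (j : Fin 2) : v (pr a ζ e j) ≤ 1 := by
  unfold pr
  split_ifs <;> fin_cases j <;> simp [h e]

theorem cst_two_ge {K : Type} [Field K] (v : AbsoluteValue K ℝ) : 1 ≤ cst v 2 := by
  unfold cst
  split_ifs <;> norm_num

theorem max_asm_le {K : Type} [Field K] (v : AbsoluteValue K ℝ) (Y r : Fin 2 → K)
    (hr : ∀ j, v (r j) ≤ 1) :
    max (v (sy Y r 0)) (max (v (sy Y r 1)) (v (sy Y r 2))) ≤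
      cst v 2 * max (v (Y 0)) (v (Y 1)) := by
  have hM : 0 ≤ max (v (Y 0)) (v (Y 1)) := le_max_of_le_left (v.nonneg _)
  have h1 := cst_two_ge v
  have hb : ∀ i j, v (Y i * r j) ≤ max (v (Y 0)) (v (Y 1)) := by
    intro i j
    rw [map_mul]
    have h3 : v (Y i) ≤ max (v (Y 0)) (v (Y 1)) := by
      fin_cases i
      · exact le_max_left _ _
      · exact le_max_right _ _
    exact (mul_le_of_le_one_right (v.nonneg _) (hr j)).trans h3
  have hM2 : max (v (Y 0)) (v (Y 1)) ≤ cst v 2 * max (v (Y 0)) (v (Y 1)) :=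
    le_mul_of_one_le_left hM h1
  refine max_le ?_ (max_le ?_ ?_)
  · exact (hb 0 0).trans hM2
  · change v (Y 0 * r 1 + Y 1 * r 0) ≤ _
    exact abv_add_le v _ _ (hb 0 1) (hb 1 0)
  · exact (hb 1 1).trans hM2

theorem gLSZ (hA : G_ASM) (hV : G_VAL) : G_LSZ := by
  intro K _ _ _ W _ n k
  have hA5 := hA.2.2.2.2 K W
  obtain ⟨c0, hc0, hc0n, hlow⟩ := hA5
  induction k with
  | zero =>
    refine ⟨fun _ => 0, FS.zero, fun _ => le_rfl, ?_⟩
    intro v a ζ z m hζ hT hm
    rw [Real.exp_zero, one_mul]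
    change 1 ≤ max (v (pr a ζ (sg m) 0)) (v (pr a ζ (sg m) 1))
    unfold pr
    split_ifs <;> simp
  | succ k ih =>
    obtain ⟨c, hc, hcn, hk⟩ := ih
    refine ⟨fun v => (4 * c v + c0 v) + Real.log (cst v 2),
      ((hc.const_mul 4).add hc0).add (FS_log_cst 2), ?_, ?_⟩
    · intro v
      have := Real.log_nonneg (cst_two_ge v)
      have := hcn v
      have := hc0n v
      linarith
    · intro v a ζ z m hζ hT hm
      have hb : ∀ i, |m i / 2| ≤ 2 ^ k ∧ |m i - m i / 2| ≤ 2 ^ k := by
        intro i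
        have h := hm i
        rw [pow_succ] at h
        rw [abs_le] at h ⊢
        rw [abs_le]
        generalize (2 : ℤ) ^ k = q at h ⊢
        omega
      have hP := hk v a ζ z (fun i => m i / 2) hζ hT (fun i => (hb i).1)
      have hQ := hk v a ζ z (fun i => m i - m i / 2) hζ hT (fun i => (hb i).2)
      have hs := step hA hV W a ζ z hT k m (fun i => (hb i).1) (fun i => (hb i).2)
      have hl := hlow v (rp (RingHom.id K) W a ζ k fun i => m i / 2)
        (rp (RingHom.id K) W a ζ k fun i => m i - m i / 2)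
      rw [hs] at hl
      have hu := max_asm_le v (rp (RingHom.id K) W a ζ (k + 1) m)
        (pr a ζ (sg fun i => m i - m i / 2 - m i / 2)) (fun j => pr_le v a ζ hζ _ j)
      set A := max (v (rp (RingHom.id K) W a ζ k (fun i => m i / 2) 0))
        (v (rp (RingHom.id K) W a ζ k (fun i => m i / 2) 1)) with hAdef
      set B := max (v (rp (RingHom.id K) W a ζ k (fun i => m i - m i / 2) 0))
        (v (rp (RingHom.id K) W a ζ k (fun i => m i - m i / 2) 1)) with hBdef
      set D := max (v (rp (RingHom.id K) W a ζ (k + 1) m 0))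
        (v (rp (RingHom.id K) W a ζ (k + 1) m 1)) with hDdef
      have hAB : 1 ≤ Real.exp (4 * c v) * (A * B) ^ 2 := by
        have h1 : 1 ≤ (Real.exp (c v) * A) * (Real.exp (c v) * B) := by
          have := mul_le_mul hP hQ zero_le_one (zero_le_one.trans hP)
          simpa using this
        have h2 : 1 ≤ ((Real.exp (c v) * A) * (Real.exp (c v) * B)) ^ 2 := one_le_pow₀ h1
        have h3 : ((Real.exp (c v) * A) * (Real.exp (c v) * B)) ^ 2 =
            Real.exp (4 * c v) * (A * B) ^ 2 := by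
          have : Real.exp (4 * c v) = Real.exp (c v) ^ 4 := by
            rw [← Real.exp_nat_mul]
            norm_num
          rw [this]
          ring
        rwa [h3] at h2
      have hcst : 0 < cst v 2 := lt_of_lt_of_le one_pos (cst_two_ge v)
      have e : Real.exp ((4 * c v + c0 v) + Real.log (cst v 2)) =
          Real.exp (4 * c v) * Real.exp (c0 v) * cst v 2 := by
        rw [Real.exp_add, Real.exp_add, Real.exp_log hcst]
      rw [e]
      calc 1 ≤ Real.exp (4 * c v) * (A * B) ^ 2 := hAB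
        _ ≤ Real.exp (4 * c v) * (Real.exp (c0 v) * (cst v 2 * D)) := by
            refine mul_le_mul_of_nonneg_left ?_ (Real.exp_nonneg _)
            exact hl.trans (mul_le_mul_of_nonneg_left hu (Real.exp_nonneg _))
        _ = _ := by ring

end Pool.Agent.Helper24.UN
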