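import Mathlib
import Pool.Agent.Helper43.UN.GoalsR
import Pool.Agent.Helper55.UW.RL

/-!
# Project UN, packet RLn: renumbering with three blocks
-/

set_option autoImplicit false

namespace Pool.Agent.Helper24.UN

open Finset
open Pool.Agent.Lead.Sh
open Pool.Agent.Helper43.UN
open Pool.Agent.Helper18.UW (mu)
open Pool.Agent.Helper55.UW (rx_gen exists_enum)

/-- **Packet RLn.** -/
theorem goalRLn : GoalRLn := by
  classical
  intro A Hg Cl m K hHg hCl hdis hK
  obtain ⟨f0, g0, hf0, hg0, -⟩ := exists_enum m Hg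
  obtain ⟨f1, g1, hf1, hg1, -⟩ := exists_enum m (A \ (Hg ∪ Cl))
  obtain ⟨f2, g2, hf2, hg2, hmo⟩ := exists_enum m Cl
  set N00 := Hg.card with hN00
  set n0 := (A \ (Hg ∪ Cl)).card with hn0
  set n1 := Cl.card with hn1
  obtain ⟨N0, hN0⟩ : ∃ N0, N0 = N00 + n0 := ⟨_, rfl⟩
  have hdH : ∀ k ∈ Hg, k ∉ Cl := fun k hk hk' => Finset.disjoint_left.1 hdis hk hk'
  set σ : ℕ → ℕ := fun c => if c < N00 then f0 c else if c < N0 then f1 (c - N00) else f2 (c - N0)
    with hσ
  set ρ : ℕ → ℕ := fun k => if k ∈ Cl then N0 + g2 k else if k ∈ Hg then g0 k else N00 + g1 k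
    with hρ
  have hσ0 : ∀ c < N00, σ c ∈ Hg ∧ ρ (σ c) = c := by
    intro c hc
    have h1 := hf0 c hc
    simp only [hσ, if_pos hc]
    refine ⟨h1.1, ?_⟩
    simp only [hρ, if_neg (hdH _ h1.1), if_pos h1.1]
    exact h1.2
  have hσ1 : ∀ c, N00 ≤ c → c < N0 → σ c ∈ A \ (Hg ∪ Cl) ∧ ρ (σ c) = c := by
    intro c hc hc'
    have h1 := hf1 (c - N00) (by omega)
    have h3 : ¬ c < N00 := by omega
    simp only [hσ, if_neg h3, if_pos hc']
    refine ⟨h1.1, ?_⟩
    have h2 := (mem_sdiff.1 h1.1).2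
    rw [mem_union, not_or] at h2
    simp only [hρ, if_neg h2.1, if_neg h2.2]
    rw [h1.2]
    omega
  have hσ2 : ∀ c, N0 ≤ c → c < N0 + n1 → σ c ∈ Cl ∧ ρ (σ c) = c := by
    intro c hc hc'
    have h1 := hf2 (c - N0) (by omega)
    have h3 : ¬ c < N00 := by omega
    have h4 : ¬ c < N0 := by omega
    simp only [hσ, if_neg h3, if_neg h4]
    refine ⟨h1.1, ?_⟩
    simp only [hρ, if_pos h1.1]
    rw [h1.2]
    omega
  have hσA : ∀ c < N0 + n1, σ c ∈ A ∧ ρ (σ c) = c := by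
    intro c hc
    by_cases h : c < N00
    · exact ⟨hHg (hσ0 c h).1, (hσ0 c h).2⟩
    · by_cases h' : c < N0
      · exact ⟨(mem_sdiff.1 (hσ1 c (by omega) h').1).1, (hσ1 c (by omega) h').2⟩
      · exact ⟨hCl (hσ2 c (by omega) hc).1, (hσ2 c (by omega) hc).2⟩
  have hρ0 : ∀ k ∈ Hg, ρ k < N00 ∧ σ (ρ k) = k := by
    intro k hk
    have h1 := hg0 k hk
    simp only [hρ, if_neg (hdH k hk), if_pos hk, hσ, if_pos h1.1]
    exact ⟨h1.1, h1.2⟩
  have hρ1 : ∀ k ∈ A \ (Hg ∪ Cl), N00 ≤ ρ k ∧ ρ k < N0 ∧ σ (ρ k) = k := by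
    intro k hk
    have h1 := hg1 k hk
    have h := (mem_sdiff.1 hk).2
    rw [mem_union, not_or] at h
    have h3 : ¬ N00 + g1 k < N00 := by omega
    have h4 : N00 + g1 k < N0 := by omega
    simp only [hρ, if_neg h.1, if_neg h.2, hσ, if_neg h3, if_pos h4]
    refine ⟨by omega, by omega, ?_⟩
    rw [show N00 + g1 k - N00 = g1 k by omega]
    exact h1.2
  have hρ2 : ∀ k ∈ Cl, N0 ≤ ρ k ∧ ρ k < N0 + n1 ∧ σ (ρ k) = k := by
    intro k hk
    have h1 := hg2 k hk
    have h3 : ¬ N0 + g2 k < N00 := by omega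
    have h4 : ¬ N0 + g2 k < N0 := by omega
    simp only [hρ, if_pos hk, hσ, if_neg h3, if_neg h4]
    refine ⟨by omega, by omega, ?_⟩
    rw [show N0 + g2 k - N0 = g2 k by omega]
    exact h1.2
  have hρA : ∀ k ∈ A, ρ k < N0 + n1 ∧ σ (ρ k) = k := by
    intro k hk
    by_cases h : k ∈ Cl
    · exact ⟨(hρ2 k h).2.1, (hρ2 k h).2.2⟩
    · by_cases h' : k ∈ Hg
      · exact ⟨by have := (hρ0 k h').1; omega, (hρ0 k h').2⟩
      · have h1 := hρ1 k (mem_sdiff.2 ⟨hk, by rw [mem_union, not_or]; exact ⟨h', h⟩⟩)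
        exact ⟨by have := h1.2.1; omega, h1.2.2⟩
  have hNK : N0 + (n1 - K) + K = N0 + n1 := by omega
  have hmu : ∀ c, mu (fun c => m (σ c)) (fun i => m (σ (N0 + (n1 - K) + i))) (N0 + (n1 - K)) c =
      m (σ c) := by
    intro c
    unfold mu
    split_ifs with h
    · rfl
    · show m (σ (N0 + (n1 - K) + (c - (N0 + (n1 - K))))) = m (σ c)
      rw [show N0 + (n1 - K) + (c - (N0 + (n1 - K))) = c by omega]
  have hAll : ∑ c ∈ range (N0 + n1), (m (σ c) + 1).choose 2 = ∑ k ∈ A, (m k + 1).choose 2 := by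
    refine sum_nbij' σ ρ ?_ ?_ ?_ ?_ ?_
    · intro c hc
      exact (hσA c (mem_range.1 hc)).1
    · intro k hk
      exact mem_range.2 (hρA k hk).1
    · intro c hc
      exact (hσA c (mem_range.1 hc)).2
    · intro k hk
      exact (hρA k hk).2
    · intro c _
      rfl
  refine ⟨fun c => m (σ c), fun i => m (σ (N0 + (n1 - K) + i)), N00, N0, N0 + (n1 - K), by omega,
    by omega, ?_, ?_, ?_, ?_, ?_, ?_, ?_, ?_, ?_⟩
  · intro c hc
    exact ⟨σ c, (hσ0 c hc).1, rfl⟩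
  · intro c hc hc'
    have h1 := mem_sdiff.1 (hσ1 c hc hc').1
    refine ⟨σ c, h1.1, ?_, rfl⟩
    intro h2
    exact h1.2 (mem_union_left _ h2)
  · intro c hc hc'
    exact ⟨σ c, (hσ2 c hc (by omega)).1, rfl⟩
  · intro i hi
    exact ⟨σ (N0 + (n1 - K) + i), (hσ2 _ (by omega) (by omega)).1, rfl⟩
  · intro c c' h1 h2 h3
    have h4 : ¬ c < N00 := by omega
    have h5 : ¬ c' < N00 := by omega
    have h6 : ¬ c < N0 := by omega
    have h7 : ¬ c' < N0 := by omega
    simp only [hσ, if_neg h4, if_neg h5, if_neg h6, if_neg h7]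
    exact hmo (c - N0) (c' - N0) (by omega) (by omega)
  · refine sum_nbij' σ ρ ?_ ?_ ?_ ?_ ?_
    · intro c hc
      exact (hσ0 c (mem_range.1 hc)).1
    · intro k hk
      exact mem_range.2 (hρ0 k hk).1
    · intro c hc
      exact (hσ0 c (mem_range.1 hc)).2
    · intro k hk
      exact (hρ0 k hk).2
    · intro c _
      rfl
  · rw [← sum_sdiff hCl]
    congr 1
    refine sum_nbij' σ ρ ?_ ?_ ?_ ?_ ?_
    · intro c hc
      have hc' := mem_range.1 hc
      by_cases h : c < N00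
      · exact mem_sdiff.2 ⟨hHg (hσ0 c h).1, hdH _ (hσ0 c h).1⟩
      · have h1 := mem_sdiff.1 (hσ1 c (by omega) hc').1
        exact mem_sdiff.2 ⟨h1.1, fun h2 => h1.2 (mem_union_right _ h2)⟩
    · intro k hk
      have h1 := mem_sdiff.1 hk
      refine mem_range.2 ?_
      by_cases h : k ∈ Hg
      · have := (hρ0 k h).1
        omega
      · exact (hρ1 k (mem_sdiff.2 ⟨h1.1, by rw [mem_union, not_or]; exact ⟨h, h1.2⟩⟩)).2.1
    · intro c hc
      have := mem_range.1 hc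
      exact (hσA c (by omega)).2
    · intro k hk
      exact (hρA k (mem_sdiff.1 hk).1).2
    · intro c _
      rfl
  · have h1 : ∑ c ∈ range (N0 + (n1 - K)), (m (σ c) + 1).choose 2 +
        ∑ i ∈ range K, (m (σ (N0 + (n1 - K) + i)) + 1).choose 2 =
        ∑ c ∈ range (N0 + n1), (m (σ c) + 1).choose 2 := by
      rw [← hNK]
      exact (sum_range_add (fun c => (m (σ c) + 1).choose 2) _ _).symm
    rw [h1]
    exact hAll
  · intro D
    refine rx_gen (f := σ) (g := ρ) ?_ ?_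
    · intro c hc
      have hc' : c < N0 + n1 := by
        have := mem_range.1 hc
        omega
      exact ⟨(hσA c hc').1, (hσA c hc').2, (hmu c).symm⟩
    · intro k hk
      refine ⟨mem_range.2 ?_, (hρA k hk).2⟩
      have := (hρA k hk).1
      omega

end Pool.Agent.Helper24.UN
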